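import Pool.Agent.FUR.Stmts

/-!
EXT: strategy extraction.
-/

set_option autoImplicit false

open Finset

namespace Pool.Agent.FUR.H99

open Pool.Agent.FUR

/-- the test -/
def tst {n : ℕ} (L B : PF) (x : Fin n → Bool) : Bool := L.eval (asg x (B.eval (asg x false)))

theorem univ_eq {n u : ℕ} (h : (QPar n).Univ u) : u = n := by
  have h' : (List.replicate n false ++ true :: List.replicate n false)[u]? = some true := h
  rcases Nat.lt_trichotomy u n with hlt | heq | hgt
  · exfalso
    rw [List.getElem?_append_left (by simpa using hlt), List.getElem?_replicate, if_pos hlt] at h'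
    exact absurd h' (by decide)
  · exact heq
  · exfalso
    rw [List.getElem?_append_right (by simpa using hgt.le), List.length_replicate] at h'
    obtain ⟨m, hm⟩ : ∃ m, u - n = m + 1 := ⟨u - n - 1, by omega⟩
    rw [hm, List.getElem?_cons_succ, List.getElem?_replicate] at h'
    split_ifs at h' with h2
    exact absurd h' (by decide)

theorem asg_full {n : ℕ} (x : Fin n → Bool) (b : Bool) (v : ℕ) (hv : v ≤ n) :
    full x b v = asg x b v := by
  unfold full
  rw [if_pos hv]

theorem asg_lt {n : ℕ} (x : Fin n → Bool) (b c : Bool) (v : ℕ) (hv : v < n) :
    asg x b v = asg x c v := by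
  unfold asg
  rw [dif_pos hv, dif_pos hv]

theorem asg_n {n : ℕ} (x : Fin n → Bool) (b : Bool) : asg x b n = b := by
  unfold asg
  rw [dif_neg (lt_irrefl n), if_pos rfl]

theorem ext (hSEM : SEMStmt) (hMAT : MATStmt) : EXTStmt := by
  intro n hn R hR s Λ k h hf
  obtain ⟨s1, s2, s3, s4⟩ := hSEM
  have key : ∃ L B : Fin k → PF, (∀ j, (L j).size ≤ s ∧ (B j).size ≤ s) ∧
      ∀ x : Fin n → Bool, (∃ j, tst (L j) (B j) x = false ∧ (∀ i < j, tst (L i) (B i) x = true) ∧
        (B j).eval (asg x false) = par x) ∨
        ((∀ i, tst (L i) (B i) x = true) ∧ ∀ φ ∈ Λ, φ.eval (full x (!(par x))) = true) := by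
    clear hf
    induction h with
    | nil =>
      refine ⟨fun i => i.elim0, fun i => i.elim0, fun i => i.elim0, fun x => Or.inr
        ⟨fun i => i.elim0, fun φ hφ => ?_⟩⟩
      simp at hφ
    | clause h c hc ih =>
      obtain ⟨L, B, hs, hx⟩ := ih
      refine ⟨L, B, hs, fun x => ?_⟩
      rcases hx x with h1 | ⟨h1, h2⟩
      · exact Or.inl h1
      · refine Or.inr ⟨h1, fun φ hφ => ?_⟩
        rcases List.mem_cons.1 hφ with rfl | hφ
        · exact hMAT n hn x c hc
        · exact h2 φ hφ
    | rule h r hr τ hp ih =>
      obtain ⟨L, B, hs, hx⟩ := ih
      refine ⟨L, B, hs, fun x => ?_⟩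
      rcases hx x with h1 | ⟨h1, h2⟩
      · exact Or.inl h1
      · refine Or.inr ⟨h1, fun φ hφ => ?_⟩
        rcases List.mem_cons.1 hφ with rfl | hφ
        · rw [s1]
          refine hR r hr _ fun p hpp => ?_
          rw [← s1]
          exact h2 _ (hp p hpp)
        · exact h2 φ hφ
    | @red Λ k h A hA u hu hin hlast C hC hs1 hs2 ih =>
      obtain ⟨L, B, hs, hx⟩ := ih
      have hun : u = n := univ_eq hu
      subst hun
      refine ⟨Fin.snoc (α := fun _ => PF) L A, Fin.snoc (α := fun _ => PF) B C, ?_, fun x => ?_⟩
      · intro j
        refine Fin.lastCases ?_ (fun j => ?_) j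
        · rw [Fin.snoc_last, Fin.snoc_last]
          exact ⟨hs1, hs2⟩
        · rw [Fin.snoc_castSucc, Fin.snoc_castSucc]
          exact hs j
      · rcases hx x with ⟨j, h1, h2, h3⟩ | ⟨h1, h2⟩
        · refine Or.inl ⟨j.castSucc, ?_, ?_, ?_⟩
          · rw [Fin.snoc_castSucc, Fin.snoc_castSucc]
            exact h1
          · intro i
            refine Fin.lastCases ?_ (fun i => ?_) i
            · intro hlt
              exact absurd hlt (not_lt.2 (Fin.le_last _))
            · intro hlt
              rw [Fin.snoc_castSucc, Fin.snoc_castSucc]
              exact h2 i (Fin.castSucc_lt_castSucc_iff.1 hlt)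
          · rw [Fin.snoc_castSucc]
            exact h3
        · -- the value of the substituted formula
          have hCv : C.eval (full x (!(par x))) = C.eval (asg x false) := by
            refine s3 _ _ C fun v hv => ?_
            have hv' := hC v hv
            rw [asg_full x _ v hv'.le]
            exact asg_lt x _ _ v hv'
          have hnew : (A.sub1 u C).eval (full x (!(par x))) = tst A C x := by
            rw [s2, hCv]
            refine s3 _ _ A fun v hv => ?_
            have hv' := hlast v hv
            by_cases hvu : v = u
            · subst hvu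
              rw [Function.update_self, asg_n]
            · rw [Function.update_of_ne hvu, asg_full x _ v hv']
              exact asg_lt x _ _ v (lt_of_le_of_ne hv' hvu)
          by_cases ht : tst A C x = true
          · refine Or.inr ⟨fun i => ?_, fun φ hφ => ?_⟩
            · refine Fin.lastCases ?_ (fun i => ?_) i
              · rw [Fin.snoc_last, Fin.snoc_last]
                exact ht
              · rw [Fin.snoc_castSucc, Fin.snoc_castSucc]
                exact h1 i
            · rcases List.mem_cons.1 hφ with rfl | hφ
              · rw [hnew]
                exact ht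
              · exact h2 φ hφ
          · have ht' : tst A C x = false := by
              cases hh : tst A C x
              · rfl
              · exact absurd hh ht
            refine Or.inl ⟨Fin.last k, ?_, ?_, ?_⟩
            · rw [Fin.snoc_last, Fin.snoc_last]
              exact ht'
            · intro i
              refine Fin.lastCases ?_ (fun i => ?_) i
              · intro hlt
                exact absurd hlt (lt_irrefl _)
              · intro _
                rw [Fin.snoc_castSucc, Fin.snoc_castSucc]
                exact h1 i
            · rw [Fin.snoc_last]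
              by_contra hne
              have hc : C.eval (asg x false) = !(par x) := by
                cases h5 : C.eval (asg x false) <;> cases h6 : par x <;>
                  simp_all
              have h7 := h2 A hA
              have h8 : A.eval (full x (!(par x))) = A.eval (asg x (!(par x))) :=
                s3 _ _ A fun v hv => asg_full x _ v (hlast v hv)
              rw [h8] at h7
              unfold tst at ht'
              rw [hc, h7] at ht'
              exact absurd ht' (by decide)
  obtain ⟨L, B, hs, hx⟩ := key
  refine ⟨L, B, hs, fun x => ?_⟩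
  rcases hx x with h1 | ⟨-, h2⟩
  · exact h1
  · exact absurd (h2 _ hf) (by simp [PF.eval])

end Pool.Agent.FUR.H99
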